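import Pool.Agent.H83.V.T1

/-!
# MP_c59857_nt, Theorem V: row TOPV (the top of the tower)
-/

set_option autoImplicit false

open MeasureTheory ProbabilityTheory Filter Topology Finset
open scoped Nat ENNReal

namespace Pool.Agent.H38.V

open Pool.Agent.H83.V
open Pool.Agent.H67.AG (avgP ul Inv Rt Av SA kap JJ TT InvZ nxt triv tow XN PN TN XX PX TX prX Fac)
open Pool.Agent.H28.LF (Wd La Cd dm ds)

theorem inv_le {Ω : Type} [MeasurableSpace Ω] (T : Ω ≃ᵐ Ω) (n : ℕ) : Inv T n ≤ ‹MeasurableSpace Ω› :=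
  fun _ h => h.1

/-- the conditional expectation of an ergodic system is constant -/
theorem condExp_erg {Ω : Type} [MeasurableSpace Ω] {P : Measure Ω} [IsProbabilityMeasure P]
    {T : Ω ≃ᵐ Ω} (h : Ergodic T P) (f : Ω → ℝ) :
    ∀ᵐ ω ∂P, (P[f | Inv T 1]) ω = ∫ ω, f ω ∂P := by
  have h1 : Measurable[Inv T 1] (P[f | Inv T 1]) := stronglyMeasurable_condExp.measurable
  have h2 : (P[f | Inv T 1]) ∘ (T^[1]) = P[f | Inv T 1] :=
    MeasurableSpace.comp_eq_of_measurable_invariants h1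
  have h3 : (P[f | Inv T 1]) ∘ T =ᵐ[P] P[f | Inv T 1] := by
    rw [Function.iterate_one] at h2
    rw [h2]
  have h4 : AEStronglyMeasurable (P[f | Inv T 1]) P :=
    (stronglyMeasurable_condExp.mono (inv_le T 1)).aestronglyMeasurable
  obtain ⟨C, hC⟩ := h.ae_eq_const_of_ae_eq_comp_ae h4 h3
  have h5 : ∫ ω, (P[f | Inv T 1]) ω ∂P = ∫ ω, f ω ∂P := integral_condExp (inv_le T 1)
  have h6 : ∫ ω, (P[f | Inv T 1]) ω ∂P = C := by
    rw [integral_congr_ae hC]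
    simp
  filter_upwards [hC] with ω hω
  rw [hω, ← h5, h6]
  rfl

theorem vv_meas (c : Vx) (Z : SA c.X) : Measurable (c.vv Z) := by
  have h : ∀ b, Measurable (c.wt Z b) := fun b =>
    (stronglyMeasurable_condExp.mono Z.2).measurable
  unfold Vx.vv
  fun_prop

theorem pf_TOPV (hG : T_GAP) (hR : T_RSV) (hS : Pool.Agent.H28.LF.T_STC) (hJ : T_JVV)
    (hM : T_MB) (hN : T_NUM) (hJ2 : Pool.Agent.H67.AG.T_J2) (hJ3 : Pool.Agent.H67.AG.T_J3)
    (hTW : Pool.Agent.H67.AG.T_TW) : T_TOPV := by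
  intro c
  obtain ⟨hγ1, hulo, hgap, huh, hulo'⟩ := hN c
  have hmp : MeasurePreserving c.T c.μ c.μ := c.erg.toMeasurePreserving
  have hm0 : (0 : ℝ) < c.m := by exact_mod_cast c.m0
  have hkp : 0 < kp c.γ := by unfold kp; have := c.γ0; positivity
  have hγ0 := c.γ0
  obtain ⟨Z, hZ⟩ : ∃ Z, Z = tow c.μ c.T c.m := ⟨_, rfl⟩
  have hV : ∫ x, c.vv Z x ∂c.μ < kp c.γ / c.m := by
    by_contra hge
    push Not at hge
    obtain ⟨V, hVd⟩ : ∃ V, V = ∫ x, c.vv Z x ∂c.μ := ⟨_, rfl⟩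
    rw [← hVd] at hge
    have hu0 : 0 < kp c.γ / c.m := by positivity
    have hV0 : 0 < V := lt_of_lt_of_le hu0 hge
    obtain ⟨th, hth⟩ : ∃ th, th = kp c.γ / (c.m * V) := ⟨_, rfl⟩
    have hth0 : 0 ≤ th := by rw [hth]; positivity
    have hth1 : th ≤ 1 := by
      rw [hth, div_le_one (by positivity)]
      rw [div_le_iff₀ hm0] at hge
      linarith
    have hthV : th * V = kp c.γ / c.m := by
      rw [hth]; field_simp
    have hR' := hR c c.m th (Nat.le_succ _) hth0 hth1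
    rw [← hZ] at hR'
    have hf01 : ∀ x, 0 ≤ th * c.vv Z x ∧ th * c.vv Z x ≤ 1 := by
      intro x
      have h1 : 0 ≤ c.vv Z x := le_max_left _ _
      have h2 : c.vv Z x ≤ 1 := max_le zero_le_one (min_le_left _ _)
      exact ⟨mul_nonneg hth0 h1, by nlinarith⟩
    have hfm : Measurable fun x => th * c.vv Z x := (vv_meas c Z).const_mul th
    have hint : ∫ x, th * c.vv Z x ∂c.μ = kp c.γ / c.m := by
      rw [integral_const_mul, ← hVd, hthV]
    have hcond : ∀ᵐ ω ∂c.μ, (c.μ[(fun x => th * c.vv Z x) | Inv c.T 1]) ω ≤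
        2 * (kp c.γ / c.m) := by
      filter_upwards [condExp_erg c.erg fun x => th * c.vv Z x] with ω hω
      rw [hω, hint]
      linarith
    have hS' := hS c.X c.μ c.T c.U (fun x => th * c.vv Z x) c.m c.γ (kp c.γ / c.m) hmp c.hU hfm
      hf01 hγ0 hγ1 hu0.le (by
        have : (c.m : ℝ) * (kp c.γ / c.m) = kp c.γ := by field_simp
        rw [this]; unfold kp; exact le_rfl) hcond
    rw [hint] at hS' hR'
    obtain ⟨S, hSd⟩ : ∃ S, S = ∑ d ∈ Icc 1 c.m,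
        Cd c.U c.μ c.T (fun x => th * c.vv Z x) Set.univ d := ⟨_, rfl⟩
    rw [← hSd] at hS' hR'
    have hrel := c.rel
    have hds := c.hγ
    have hI : (c.m : ℝ) ≤ 2 * (c.I.card : ℝ) := by exact_mod_cast c.hI
    obtain ⟨N, hNd⟩ : ∃ N : ℝ, N = (c.I.card : ℝ) := ⟨_, rfl⟩
    rw [← hNd] at hR' hI
    have hN0 : 0 ≤ N := by linarith
    obtain ⟨u, hud⟩ : ∃ u, u = kp c.γ / c.m := ⟨_, rfl⟩
    rw [← hud] at hR' hS' hu0
    have e1 : c.γ * (N * u) ≤ ds c.U c.s * (N * u) :=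
      mul_le_mul_of_nonneg_right hds (by positivity)
    have e2 : N * (2 * S) ≤ N * (c.γ / 8 * u) := mul_le_mul_of_nonneg_left hS' hN0
    have e3 : 7 / 8 * c.γ * (N * u) ≤ 2 * (c.γ ^ 4 / 10 ^ 9) := by nlinarith
    have e4 : kp c.γ / 2 ≤ N * u := by
      have : kp c.γ = c.m * u := by rw [hud]; field_simp
      rw [this]
      nlinarith
    have e5 : 7 / 8 * c.γ * (kp c.γ / 2) ≤ 7 / 8 * c.γ * (N * u) :=
      mul_le_mul_of_nonneg_left e4 (by positivity)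
    have e6 : 7 / 8 * c.γ * (kp c.γ / 2) ≤ 2 * (c.γ ^ 4 / 10 ^ 9) := e5.trans e3
    unfold kp at e6
    have hg3 : 0 < c.γ ^ 3 := by positivity
    have e7 : c.γ ^ 4 ≤ c.γ ^ 3 := by
      have : c.γ ^ 4 = c.γ ^ 3 * c.γ := by ring
      rw [this]
      nlinarith
    have e8 : 7 / 8 * c.γ * (c.γ ^ 2 / 16384 / 2) = 7 / 262144 * c.γ ^ 3 := by ring
    rw [e8] at e6
    nlinarith
  -- the self-joining
  obtain ⟨hP, hf, hs, _⟩ := hJ2 c.X c.μ Z
  have hT : MeasurePreserving (TT c.T) (JJ c.μ Z) (JJ c.μ Z) :=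
    (hJ3 c.X c.μ c.T Z hmp (by rw [hZ]; exact hTW c.X c.μ c.T c.erg c.m)).1
  have hF1 : Fac (JJ c.μ Z) (TT c.T) c.μ c.T Prod.fst := ⟨hf, fun _ => rfl⟩
  have hF2 : Fac (JJ c.μ Z) (TT c.T) c.μ c.T Prod.snd := ⟨hs, fun _ => rfl⟩
  obtain ⟨hMm, _, hMb, _, hMc⟩ := hM c
  have hcM := hMc (c.X × c.X) (JJ c.μ Z) (TT c.T) Prod.fst Prod.snd hT hF1 hF2
  have hg := hG c (c.X × c.X) (JJ c.μ Z) (TT c.T) Prod.fst Prod.snd hT hF1 hF2
  have hMi : Integrable c.M (JJ c.μ Z) := by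
    refine Integrable.of_bound hMm.aestronglyMeasurable 1 (ae_of_all _ fun p => ?_)
    have h := hMb p.1 p.2 p.1
    rw [Real.norm_eq_abs, abs_of_nonneg h.1]
    exact h.2.1
  have hIM : ∫ p, c.M p ∂(JJ c.μ Z) = ∫ x, c.vv Z x ∂c.μ := by
    have h1 : ∫ p, c.M p ∂(JJ c.μ Z) = ∫ p, ((JJ c.μ Z)[dm (fun ω : c.X × c.X => c.a ω.1)
        (fun ω => c.a ω.2) | Inv (TT c.T) 1]) p ∂(JJ c.μ Z) :=
      (integral_congr_ae hcM).symm
    rw [h1, integral_condExp (inv_le (TT c.T) 1), hJ c Z]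
    have hms : MeasurableSet {p : c.X × c.X | c.a p.1 ≠ c.a p.2} :=
      (measurableSet_eq_fun (c.am.comp measurable_fst) (c.am.comp measurable_snd)).compl
    have h2 : dm (fun ω : c.X × c.X => c.a ω.1) (fun ω => c.a ω.2) =
        {p : c.X × c.X | c.a p.1 ≠ c.a p.2}.indicator (fun _ => (1 : ℝ)) := by
      funext p
      unfold dm
      by_cases h : c.a p.1 = c.a p.2
      · rw [Set.indicator_of_notMem (by simp [h])]
        simp [h]
      · rw [Set.indicator_of_mem (by simpa using h)]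
        simp [h]
    rw [h2, integral_indicator_const _ hms]
    simp
  -- end
  show 0 < (JJ c.μ (tow c.μ c.T c.m)).real c.Ec
  rw [← hZ]
  by_contra hneg
  have hz : (JJ c.μ Z).real c.Ec = 0 := le_antisymm (not_lt.1 hneg) measureReal_nonneg
  have hz' : JJ c.μ Z c.Ec = 0 := by
    rwa [measureReal_eq_zero_iff] at hz
  have hae : ∀ᵐ p ∂(JJ c.μ Z), p ∉ c.Ec := measure_eq_zero_iff_ae_notMem.1 hz'
  have hge : ∀ᵐ p ∂(JJ c.μ Z), c.uh ≤ c.M p := by
    filter_upwards [hae, hg] with p h1 h2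
    have h3 : c.ulo < c.M p := not_le.1 h1
    by_contra h4
    exact h2 ⟨h3, (not_le.1 h4).le⟩
  have h5 : c.uh ≤ ∫ p, c.M p ∂(JJ c.μ Z) := by
    have : ∫ _p : c.X × c.X, c.uh ∂(JJ c.μ Z) ≤ ∫ p, c.M p ∂(JJ c.μ Z) :=
      integral_mono_ae (integrable_const _) hMi hge
    simpa using this
  rw [hIM] at h5
  have h6 : c.uh = 2 * (kp c.γ / c.m) := by unfold Vx.uh; ring
  rw [h6] at h5
  have : 0 < kp c.γ / c.m := by positivity
  linarith

end Pool.Agent.H38.V
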